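import Mathlib
import Pool.Agent.W765.Sta4

set_option autoImplicit false

open MeasureTheory Filter Topology Set

/-- For multiplicatively independent `p, q ≥ 2` and an atomless probability measure `μ` on `R/Z`
invariant under `x ↦ q x` (only), `μ`-almost every point has a dense orbit under `x ↦ p x`.  If `μ`
is also invariant under `x ↦ p x`, then every measurable set `A` of positive measure which is mapped
into itself by `x ↦ p x` up to a null set has positive measure in every nonempty open set: almost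
all ergodic components of `μ` for `x ↦ p x` have full support. -/
theorem Pool.Agent.Results.MP_96e181_an.DenseOrbits.result :
    ∀ (p q : ℕ), 2 ≤ p → 2 ≤ q → Irrational (Real.log p / Real.log q) →
      ∀ (μ : Measure (AddCircle (1 : ℝ))), IsProbabilityMeasure μ →
      (∀ x : AddCircle (1 : ℝ), μ {x} = 0) →
      MeasurePreserving (fun x : AddCircle (1 : ℝ) => q • x) μ μ →
      (∀ᵐ x ∂μ, Dense (range fun n : ℕ => p ^ n • x)) ∧
      (MeasurePreserving (fun x : AddCircle (1 : ℝ) => p • x) μ μ →
        ∀ A : Set (AddCircle (1 : ℝ)), MeasurableSet A → 0 < μ A →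
          (∀ᵐ x ∂μ, x ∈ A → p • x ∈ A) →
          ∀ U : Set (AddCircle (1 : ℝ)), IsOpen U → U.Nonempty → 0 < μ (A ∩ U)) := by
  intro p q hp hq hirr μ hprob hatom hμq
  have hd := Pool.Agent.W765.Sta.dense_orbit hp hq
    (Pool.Agent.H705R2.mulIndep_of_irrational hp hq hirr) hatom hμq
  refine ⟨hd, fun hμp A hA hApos hAinv U hU hUne => ?_⟩
  rw [pos_iff_ne_zero]
  intro h0
  have hit : ∀ n : ℕ, (fun x : AddCircle (1 : ℝ) => p • x)^[n] = fun x => p ^ n • x := by
    intro n
    induction n with
    | zero => ext x; simp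
    | succ n ih =>
      ext x
      rw [Function.iterate_succ_apply', ih]
      simp only [pow_succ', mul_smul]
  have h1 : ∀ᵐ x ∂μ, ∀ n : ℕ, p ^ n • x ∉ A ∩ U := by
    rw [ae_all_iff]
    intro n
    have h2 : ∀ᵐ x ∂μ, x ∉ A ∩ U := by
      rw [ae_iff]; simpa using h0
    have h3 := (hμp.iterate n).quasiMeasurePreserving.ae h2
    rw [hit n] at h3
    exact h3
  have h2 : ∀ᵐ x ∂μ, ∀ n : ℕ, p ^ n • x ∈ A → p ^ (n + 1) • x ∈ A := by
    rw [ae_all_iff]
    intro n
    have h3 := (hμp.iterate n).quasiMeasurePreserving.ae hAinv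
    rw [hit n] at h3
    filter_upwards [h3] with x hx h4
    rw [pow_succ', mul_smul]
    exact hx h4
  have h3 : ∀ᵐ x ∂μ, x ∉ A := by
    filter_upwards [hd, h1, h2] with x hx1 hx2 hx3 hxA
    have h4 : ∀ n : ℕ, p ^ n • x ∈ A := by
      intro n
      induction n with
      | zero => simpa using hxA
      | succ n ih => exact hx3 n ih
    obtain ⟨_, ⟨n, rfl⟩, h5⟩ := hx1.exists_mem_open hU hUne
    exact hx2 n ⟨h4 n, h5⟩
  rw [ae_iff] at h3
  simp only [not_not] at h3
  exact hApos.ne' h3
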