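import Pool.Agent.W764.SH.Main

/-!
For coprime `p, q ≥ 2` and an atomless `×p`, `×q`-invariant probability measure on the circle, the
averages over the multiplicative shells `{n = p ^ a * q ^ b : ϑ ^ k ≤ n < ϑ ^ (k + 1)}` converge
almost everywhere if and only if the measure is Lebesgue measure.
-/

set_option autoImplicit false

open MeasureTheory Filter Topology

namespace Pool.Agent.Results.MP_96e181_an.ShellAverages

open Classical in
/-- The `k`-th shell: the numbers `n = p ^ a * q ^ b` with `ϑ ^ k ≤ n < ϑ ^ (k + 1)`. -/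
noncomputable def shell (p q : ℕ) (ϑ : ℝ) (k : ℕ) : Finset ℕ :=
  (Finset.range ⌈ϑ ^ (k + 1)⌉₊).filter fun n => (∃ a b : ℕ, n = p ^ a * q ^ b) ∧ ϑ ^ k ≤ n

/-- The averages of every character over the shells of the orbit of `x` converge. -/
def ShellConvergent (p q : ℕ) (ϑ : ℝ) (x : UnitAddCircle) : Prop :=
  ∀ m : ℤ, ∃ l : ℂ, Tendsto (fun k : ℕ =>
    (∑ n ∈ shell p q ϑ k, fourier m (n • x)) / (shell p q ϑ k).card) atTop (𝓝 l)

lemma conv_iff (p q : ℕ) (ϑ : ℝ) (x : UnitAddCircle) :
    ShellConvergent p q ϑ x ↔ Pool.Agent.W764.SH.Conv p q ϑ x := by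
  refine forall_congr' fun m => exists_congr fun l => ?_
  have h : (fun k : ℕ => (∑ n ∈ shell p q ϑ k, fourier m (n • x)) / ((shell p q ϑ k).card : ℂ)) =
      fun k : ℕ => Pool.Agent.W764.SH.avg p q ϑ (fun y : UnitAddCircle => fourier m y) k x := by
    funext k
    show _ = ((Pool.Agent.W764.SH.shell p q ϑ k).card : ℝ)⁻¹ •
      ∑ n ∈ Pool.Agent.W764.SH.shell p q ϑ k, fourier m (n • x)
    rw [Complex.real_smul, div_eq_inv_mul]
    push_cast
    rfl
  rw [h]

/-- **Pointwise convergence over multiplicative shells characterises Lebesgue measure.**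
Let `p, q ≥ 2` be coprime, `ϑ > 1` and let `μ` be an atomless probability measure on the circle
invariant under `×p` and `×q`. Then the shell averages of all characters converge at `μ`-almost
every point if and only if `μ` is Lebesgue measure. In general the restriction of `μ` to the set of
the points with convergent shell averages is a multiple of Lebesgue measure. -/
theorem result (p q : ℕ) (hp : 2 ≤ p) (hq : 2 ≤ q) (hpq : Nat.Coprime p q) (ϑ : ℝ) (hϑ : 1 < ϑ)
    (μ : Measure UnitAddCircle) [IsProbabilityMeasure μ] (hna : ∀ x, μ {x} = 0)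
    (hip : MeasurePreserving (fun x : UnitAddCircle => p • x) μ μ)
    (hiq : MeasurePreserving (fun x : UnitAddCircle => q • x) μ μ) :
    ((∀ᵐ x ∂μ, ShellConvergent p q ϑ x) ↔ μ = volume) ∧
      μ.restrict {x | ShellConvergent p q ϑ x} = μ {x | ShellConvergent p q ϑ x} • volume := by
  obtain ⟨D, hDm, hD, hae⟩ := Pool.Agent.W764.SH.main hp hq hpq hϑ μ hna hip hiq
  have hae' : {x | ShellConvergent p q ϑ x} =ᵐ[μ] D := by
    rw [eventuallyEq_set]
    filter_upwards [hae] with x hx
    exact (conv_iff p q ϑ x).trans hx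
  have h2 : μ.restrict {x | ShellConvergent p q ϑ x} =
      μ {x | ShellConvergent p q ϑ x} • volume := by
    rw [Measure.restrict_congr_set hae', measure_congr hae', hD]
  refine ⟨⟨fun h => ?_, fun h => ?_⟩, h2⟩
  · have h3 : {x | ShellConvergent p q ϑ x} =ᵐ[μ] Set.univ := by
      rw [eventuallyEq_set]
      filter_upwards [h] with x hx
      exact ⟨fun _ => Set.mem_univ _, fun _ => hx⟩
    rw [Measure.restrict_congr_set h3, measure_congr h3, Measure.restrict_univ, measure_univ,
      one_smul] at h2
    exact h2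
  · rw [h]
    filter_upwards [Pool.Agent.W764.SH.conv_vol hp hq hpq hϑ] with x hx
    exact (conv_iff p q ϑ x).2 hx

end Pool.Agent.Results.MP_96e181_an.ShellAverages
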