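import Pool.Agent.W764.HL.Gen2

/-!
Let `p, q ≥ 2` be coprime. Outside a set of packing dimension zero every point of the circle has
long multiplicative windows `{n = p ^ a * q ^ b : X ≤ n < H X}` in which its orbit is
equidistributed; quantitative versions for clusters of points, covering numbers and fractions.
-/

set_option autoImplicit false

open MeasureTheory Filter Topology

namespace Pool.Agent.Results.MP_96e181_an.WindowDimension

open Classical in
/-- The window of the numbers `n = p ^ a * q ^ b` with `X ≤ n < Y`. -/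
noncomputable def window (p q : ℕ) (X Y : ℝ) : Finset ℕ :=
  (Finset.range ⌈Y⌉₊).filter fun n => (∃ a b : ℕ, n = p ^ a * q ^ b) ∧ X ≤ n

open Classical in
/-- The number of the `n` in the window such that `n x` lies in the closed arc of centre `c` and
radius `r`. -/
noncomputable def visits (p q : ℕ) (X Y : ℝ) (x c : UnitAddCircle) (r : ℝ) : ℕ :=
  ((window p q X Y).filter fun n => ‖n • x - c‖ ≤ r).card

/-- The multiples `n x`, `X ≤ n < Y`, are `ε`-equidistributed: the window is nonempty and the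
frequency of the visits to every arc differs from its length by at most `ε`. -/
def Equidistributed (p q : ℕ) (ε X Y : ℝ) (x : UnitAddCircle) : Prop :=
  (window p q X Y).Nonempty ∧ ∀ c : UnitAddCircle, ∀ r : ℝ, 0 ≤ r → r ≤ 1 / 2 →
    |(visits p q X Y x c r : ℝ) - 2 * r * (window p q X Y).card| ≤ ε * (window p q X Y).card

/-- Packing dimension zero: for every `s > 0` the set is contained in a countable union of sets of
upper box dimension at most `s`. -/
def PackingDimensionZero (E : Set UnitAddCircle) : Prop :=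
  ∀ s : ℝ, 0 < s → ∃ A : ℕ → Set UnitAddCircle, E ⊆ ⋃ n, A n ∧ ∀ n, ∃ C : ℝ, ∀ ρ : ℝ, 0 < ρ →
    ρ ≤ 1 → ∃ F : Finset UnitAddCircle, (F.card : ℝ) ≤ C * ρ ^ (-s) ∧
      A n ⊆ ⋃ t ∈ F, Metric.closedBall t ρ

/-- The point `x` is generic for the measure `μ` along windows: for every continuous function the
averages over the windows `X ≤ n < H X` are close to the integral, for large `H` and for
`X ≥ X₀(H)`. -/
def WindowGeneric (p q : ℕ) (μ : Measure UnitAddCircle) (x : UnitAddCircle) : Prop :=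
  ∀ f : UnitAddCircle → ℝ, Continuous f → ∀ ε : ℝ, 0 < ε → ∃ H₀ : ℕ, ∀ H : ℕ, H₀ ≤ H →
    ∃ X₀ : ℝ, ∀ X : ℝ, X₀ ≤ X →
      |∑ n ∈ window p q X (H * X), f (n • x) - (∫ y, f y ∂μ) * (window p q X (H * X)).card| ≤
        ε * (window p q X (H * X)).card

/-- **Equidistribution in long windows outside a set of packing dimension zero.** Let `p, q ≥ 2` be
coprime.
1. There is a set `E` of packing dimension zero such that for `x ∉ E`, `ε > 0` and all large `H` there
are arbitrarily large `X` for which the orbit of `x` in the window `X ≤ n < H X` is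
`ε`-equidistributed, and such that no `x ∉ E` is window-generic for a probability measure different
from Lebesgue measure.
2. For `ε, s > 0`, all large `H` and every `X₀` the set of the points whose orbits are not
`ε`-equidistributed in the window `X ≤ n < H X` for any `X` between `X₀` and `Y` is covered by
`C Y ^ s` arcs of radius `1 / Y`, for all `Y ≥ 1`.
3. Similarly for all but `C b ^ s` of the fractions `a / b`, `0 ≤ a < b`, there is `X` between `X₀`
and `b` such that the orbit of `a / b` is `ε`-equidistributed in the window `X ≤ n < H X`.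
4. If the mutual distances of `m` points are between `τ` and `K τ`, where `τ` is small with respect to
`m, K, ε, H`, then there are `α i` with `∑ (1 - α i) ≤ 1` such that in the window `1 / τ ≤ n < H / τ`
the orbit of the `i`-th point visits every arc with frequency at least `α i` times its length, up to
`ε`. -/
theorem result (p q : ℕ) (hp : 2 ≤ p) (hq : 2 ≤ q) (hpq : Nat.Coprime p q) :
    (∃ E : Set UnitAddCircle, PackingDimensionZero E ∧
      (∀ x : UnitAddCircle, x ∉ E → ∀ ε : ℝ, 0 < ε → ∃ H₀ : ℕ, ∀ H : ℕ, H₀ ≤ H →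
        ∀ X₀ : ℝ, ∃ X : ℝ, X₀ ≤ X ∧ Equidistributed p q ε X (H * X) x) ∧
      (∀ x : UnitAddCircle, x ∉ E → ∀ μ : Measure UnitAddCircle, IsProbabilityMeasure μ →
        WindowGeneric p q μ x → μ = volume)) ∧
    (∀ ε s : ℝ, 0 < ε → 0 < s → ∃ H₀ : ℝ, 1 < H₀ ∧ ∀ H : ℝ, H₀ ≤ H → ∀ X₀ : ℝ, ∃ C : ℝ, 0 < C ∧
      ∀ Y : ℝ, 1 ≤ Y → ∃ F : Finset UnitAddCircle, (F.card : ℝ) ≤ C * Y ^ s ∧
        {x : UnitAddCircle | ∀ X : ℝ, X₀ ≤ X → X ≤ Y → ¬ Equidistributed p q ε X (H * X) x} ⊆
          ⋃ t ∈ F, Metric.closedBall t (1 / Y)) ∧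
    (∀ ε s : ℝ, 0 < ε → 0 < s → ∃ H₀ : ℝ, 1 < H₀ ∧ ∀ H : ℝ, H₀ ≤ H → ∀ X₀ : ℝ, ∃ C : ℝ,
      ∀ b : ℕ, 1 ≤ b → ∃ A : Finset ℕ, (A.card : ℝ) ≤ C * (b : ℝ) ^ s ∧ ∀ a : ℕ, a < b → a ∉ A →
        ∃ X : ℝ, X₀ ≤ X ∧ X ≤ b ∧
          Equidistributed p q ε X (H * X) (((a : ℝ) / b : ℝ) : UnitAddCircle)) ∧
    (∀ (m : ℕ) (K ε : ℝ), 1 ≤ K → 0 < ε → ∃ H₀ : ℝ, 1 < H₀ ∧ ∀ H : ℝ, H₀ ≤ H →
      ∃ δ : ℝ, 0 < δ ∧ ∀ τ : ℝ, 0 < τ → τ < δ → (window p q (1 / τ) (H / τ)).Nonempty ∧
        ∀ x : Fin m → UnitAddCircle,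
          (∀ i j, i ≠ j → τ ≤ ‖x i - x j‖ ∧ ‖x i - x j‖ ≤ K * τ) →
          ∃ α : Fin m → ℝ, (∀ i, 0 ≤ α i ∧ α i ≤ 1) ∧ ∑ i, (1 - α i) ≤ 1 ∧
            ∀ i, ∀ c : UnitAddCircle, ∀ r : ℝ, r ≤ 1 / 2 →
              (2 * r * α i - ε) * (window p q (1 / τ) (H / τ)).card ≤
                visits p q (1 / τ) (H / τ) (x i) c r) := by
  refine ⟨?_, fun ε s hε hs => Pool.Agent.W764.HL.few hp hq hpq hε hs,
    fun ε s hε hs => Pool.Agent.W764.HL.rational hp hq hpq hε hs,
    fun m K ε hK hε => Pool.Agent.W764.HL.cluster hp hq hpq m hK hε⟩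
  obtain ⟨E, hE, h⟩ := Pool.Agent.W764.HL.full hp hq hpq
  refine ⟨E, hE, h, fun x hxE μ hμ hx => ?_⟩
  exact Pool.Agent.W764.HL.eq_vol_of_arcs fun c r hr =>
    Pool.Agent.W764.HL.arc_lower2 hx (h x hxE) c hr

end Pool.Agent.Results.MP_96e181_an.WindowDimension
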